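import Pool.Agent.H44.DU.Targets

/-!
# A word reaches a height bounded below
-/

set_option autoImplicit false

namespace Pool.Agent.H89.DU.HB

open Pool.Agent.H44.DU

theorem exists_amin {n : ℕ} (S : Surf n) : ∃ m > (0 : ℝ), ∀ s : Side n, m ≤ S.a s := by
  rcases isEmpty_or_nonempty (Side n) with h | h
  · exact ⟨1, one_pos, fun s => (h.false s).elim⟩
  · obtain ⟨s, hs⟩ := Finite.exists_min S.a
    exact ⟨S.a s, S.a_pos s, hs⟩

theorem pf_HB (h1 : T_GA) (h2 : T_HR) : T_HB := by
  intro n S U T hM K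
  obtain ⟨c1, hc1, hgain⟩ := h1 n S K
  obtain ⟨m, hm, hma⟩ := exists_amin S
  obtain ⟨hA, hB, -⟩ := h2 n S U T hM
  refine ⟨min 1 (m * c1), lt_min one_pos (mul_pos hm hc1), ?_⟩
  intro t ht w x hw hU hlen
  obtain ⟨u, r, r', w', he, hsg⟩ := hgain t ht (w.take (3 * n + 1)) x (S.run_take hw _)
    (by rw [List.length_take]; omega)
  have hl : u.length + 1 ≤ 3 * n := by
    have h3 := congrArg List.length he
    rw [List.length_take, List.length_append, List.length_cons, List.length_cons] at h3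
    omega
  set rest := w' ++ w.drop (3 * n + 1) with hrest
  have hwe : w = u ++ r :: (r' :: rest) := by
    conv_lhs => rw [← List.take_append_drop (3 * n + 1) w, he]
    simp [hrest]
  have hwe' : w = (u ++ [r]) ++ r' :: rest := by
    rw [hwe]
    simp
  have hrun := hw
  rw [hwe, S.run_append, S.run_cons_cons] at hrun
  obtain ⟨-, -, hj, hgl, hrun2⟩ := hrun
  have hj' : S.InJ t r' (S.mv t r (S.g t u x)) := hrun2.1
  have hg : S.g t (u ++ [r]) x = S.mv t r (S.g t u x) := by
    rw [S.g_append, S.g_single]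
  have hUr : U r.1 := hU r (by rw [hwe]; simp)
  have hUr' : U r'.1 := hU r' (by rw [hwe]; simp)
  have hI : S.InI t (S.gl r) (S.mv t r (S.g t u x)) := (S.inI_gl_iff t r _).2 hj
  obtain ⟨hT, hnT⟩ := hB t _ r r' hgl hUr' hI hj'
  by_cases hTr : T r'.1
  · refine ⟨u, r, r' :: rest, hwe, by omega, ?_⟩
    rw [hg, (hT hTr).1]
    exact min_le_left _ _
  · refine ⟨u ++ [r], r', rest, hwe', by rw [List.length_append, List.length_singleton]; omega, ?_⟩
    obtain ⟨h5, -⟩ := hnT hTr
    rw [hg] at hsg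
    obtain ⟨-, h6, h7, -⟩ := hA t _ r hj hUr
    have h8 : 0 < S.hin U T t r (S.mv t r (S.g t u x)) :=
      lt_of_lt_of_le (mul_pos (S.a_pos r) h6) h7
    obtain ⟨-, h9, h10, -⟩ := hA t _ r' hj' hUr'
    have h11 : c1 ≤ S.hout U T t r' (S.mv t r (S.g t u x)) := by linarith
    have h12 : S.g t (u ++ [r] ++ [r']) x = S.mv t r' (S.mv t r (S.g t u x)) := by
      rw [S.g_append, S.g_single, hg]
    rw [h12]
    refine (min_le_right _ _).trans (le_trans ?_ h10)
    calc m * c1 ≤ S.a r' * c1 := by gcongr; exact hma r'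
      _ ≤ S.a r' * S.hout U T t r' (S.mv t r (S.g t u x)) := by
          gcongr
          exact (S.a_pos r').le

end Pool.Agent.H89.DU.HB
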